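import Mathlib
import Pool.Agent.helper23_Euler.Lifespan2

open MeasureTheory Set Filter Topology
open scoped ContDiff NNReal ENNReal
open Pool.Agent.helper23_Euler

namespace Pool.Agent.Results.MP_55694c_an.ExpansionLifespan

/-- Polytropic Euler equations, `γ > 1`, `c_v > 0`.  Let `U_L`, `U_R` be states and `q ≥ 0` a
pressure below both pressures, such that `u_R - u_L` is at least the sum of the velocity changes
of the two rarefaction waves which lower the pressures of `U_L` and `U_R` to `q` (for `q = 0`: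
`u_R - u_L ≥ 2/(γ-1) (c_L + c_R)`).
First part: for every compact `K` of the physical region in which all pressures exceed `q` there
are constants `C, X, ε` such that an entropy weak solution on `ℝ × [0,T)` whose BV datum is
`ε`-close to `U_L` on `[a - X w, a - w]` and to `U_R` on `[a + w, a + X w]` can have its values
in `K` only if `T ≤ C w`.
Second part: for every `T > 0` and every compact `K` of the physical region with all pressures
above `q` there is a smooth datum with values in the segment `[U_L,U_R]` and total variation at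
most `|U_R - U_L|` for which no entropy weak solution on `ℝ × [0,T)` takes its values in `K`. -/
theorem result (γ cv : ℝ) (hγ : 1 < γ) (hcv : 0 < cv) (UL UR : St) (hL : UL ∈ Om) (hR : UR ∈ Om)
    (q : ℝ) (hq : 0 ≤ q) (hqL : q < pres γ UL) (hqR : q < pres γ UR)
    (hcrit : fanDrop γ q UL + fanDrop γ q UR ≤ vel UR - vel UL) :
    (∀ K : Set St, IsCompact K → K ⊆ Om → UL ∈ K → UR ∈ K → (∀ k ∈ K, q < pres γ k) →
      ∃ C X ε : ℝ, 0 < C ∧ 0 < X ∧ 0 < ε ∧ ∀ (a w : ℝ) (U0 : ℝ → St), 0 < w →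
        BoundedVariationOn U0 univ → (∀ x, U0 x ∈ K) →
        (∀ x, a - X * w ≤ x → x ≤ a - w → dist (U0 x) UL ≤ ε) →
        (∀ x, a + w ≤ x → x ≤ a + X * w → dist (U0 x) UR ≤ ε) →
        ∀ (T : ℝ) (U : ℝ × ℝ → St), 0 < T → EntropySol γ cv T U U0 →
          (BVBounded T U ∨ EntInit γ cv T U U0) →
          (∀ᵐ z ∂(volume.restrict (strip T)), U z ∈ K) → T ≤ C * w) ∧
    (∀ T : ℝ, 0 < T → ∀ K : Set St, IsCompact K → K ⊆ Om → (∀ k ∈ K, q < pres γ k) →
      ∃ U0 : ℝ → St, ContDiff ℝ ∞ U0 ∧ (∀ x, U0 x ∈ segment ℝ UL UR) ∧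
        eVariationOn U0 univ ≤ ‖UR - UL‖₊ ∧
        ∀ U : ℝ × ℝ → St, EntropySol γ cv T U U0 → (BVBounded T U ∨ EntInit γ cv T U U0) →
          ¬ ∀ᵐ z ∂(volume.restrict (strip T)), U z ∈ K) := by
  have h1 : ∀ K : Set St, IsCompact K → K ⊆ Om → UL ∈ K → UR ∈ K → (∀ k ∈ K, q < pres γ k) →
      ∃ C X ε : ℝ, 0 < C ∧ 0 < X ∧ 0 < ε ∧ ∀ (a w : ℝ) (U0 : ℝ → St), 0 < w →
        BoundedVariationOn U0 univ → (∀ x, U0 x ∈ K) →
        (∀ x, a - X * w ≤ x → x ≤ a - w → dist (U0 x) UL ≤ ε) →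
        (∀ x, a + w ≤ x → x ≤ a + X * w → dist (U0 x) UR ≤ ε) →
        ∀ (T : ℝ) (U : ℝ × ℝ → St), 0 < T → EntropySol γ cv T U U0 →
          (BVBounded T U ∨ EntInit γ cv T U U0) →
          (∀ᵐ z ∂(volume.restrict (strip T)), U z ∈ K) → T ≤ C * w :=
    fun K hK hKO hUL hUR hKq => lifespan_le2 hγ hcv hK hKO hUL hUR hq hKq hcrit
  refine ⟨h1, ?_⟩
  intro T hT K hK hKO hKq
  have hseg : IsCompact (segment ℝ UL UR) := by
    rw [segment_eq_image']
    exact isCompact_Icc.image (by fun_prop)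
  have hsegO : segment ℝ UL UR ⊆ Om := convex_Om.segment_subset hL hR
  obtain ⟨C, X, ε, hC, hX, hε, hCb⟩ := h1 (K ∪ segment ℝ UL UR) (hK.union hseg)
    (union_subset hKO hsegO) (Or.inr (left_mem_segment ℝ UL UR))
    (Or.inr (right_mem_segment ℝ UL UR)) (by
      rintro k (hk | hk)
      · exact hKq k hk
      · exact pres_segment hγ hL hR hqL hqR hk)
  obtain ⟨w, hw⟩ : ∃ w, w = T / (2 * C) := ⟨_, rfl⟩
  have hw0 : 0 < w := by rw [hw]; positivity
  have hvar := ramp_var (UL := UL) (UR := UR) hw0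
  refine ⟨ramp UL UR w, ramp_smooth UL UR w, ramp_segment UL UR w, hvar, ?_⟩
  intro U hU hE hUK
  have hBV : BoundedVariationOn (ramp UL UR w) univ :=
    ne_top_of_le_ne_top ENNReal.coe_ne_top hvar
  have h2 := hCb 0 w (ramp UL UR w) hw0 hBV (fun x => Or.inr (ramp_segment UL UR w x))
    (fun x _ hx => by rw [ramp_left hw0 (by linarith), dist_self]; exact hε.le)
    (fun x hx _ => by rw [ramp_right hw0 (by linarith), dist_self]; exact hε.le)
    T U hT hU hE (by filter_upwards [hUK] with z hz using Or.inl hz)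
  have h3 : C * w = T / 2 := by
    rw [hw]
    field_simp
  linarith

end Pool.Agent.Results.MP_55694c_an.ExpansionLifespan
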