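import Mathlib
import Pool.Agent.helper23_Euler.SFuniq

open MeasureTheory Set
open scoped NNReal

namespace Pool.Agent.Results.MP_55694c_an.ShockFreeStability

open Pool.Agent.helper23_Euler

/-- Stability of shock-free solutions with large data: for a compact subset `K` of the physical
region, a bound `M` on the total variation and a bound `c`, there are `C` and `R'` such that every
`K`-valued entropy weak solution `U` stays within `C (∫_{|x| ≤ R'} |U0 - V0|)^{1/2}` in
`L¹(-R,R)`, for a.e. `t < T`, of every `K`-valued solution `V` with total variation at most `M`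
whose velocity and pressure have integrable weak `x`-derivatives, the one of the velocity being at
least `-c`. The density of `V` is only of bounded variation. -/
theorem result {γ cv T : ℝ} (hγ : 1 < γ) (hcv : 0 < cv) (hT : 0 < T) {K : Set St}
    (hKc : IsCompact K) (hKO : K ⊆ Om) (M : ℝ≥0) (c R : ℝ) :
    ∃ C R' : ℝ, ∀ (V U : ℝ × ℝ → St) (V0 U0 : ℝ → St),
      EntropySol γ cv T V V0 → (∀ᵐ z ∂(volume.restrict (strip T)), V z ∈ K) →
      (∀ x, V0 x ∈ K) → TVle M T V → eVariationOn V0 univ ≤ M → ShockFree γ T c V →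
      EntropySol γ cv T U U0 → (∀ᵐ z ∂(volume.restrict (strip T)), U z ∈ K) →
      (∀ x, U0 x ∈ K) → Measurable U0 →
      ((BVBounded T U ∧ BoundedVariationOn U0 univ) ∨ EntInit γ cv T U U0) →
      ∀ᵐ t ∂(volume.restrict (Ioo 0 T)), ∫ x in Icc (-R) R, ‖U (x, t) - V (x, t)‖ ≤
        C * Real.sqrt (∫ x in Icc (-R') R', ‖U0 x - V0 x‖) := by
  obtain ⟨C, R', -, h⟩ := hol_St hγ hcv hT hKc hKO M c R
  exact ⟨C, R', h⟩

/-- Consequence (equal data): a shock-free solution is the only one. -/
theorem uniqueness {γ cv T : ℝ} (hγ : 1 < γ) (hcv : 0 < cv) (hT : 0 < T) {V U : ℝ × ℝ → St}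
    {V0 : ℝ → St} (hV0 : BVDatum V0) (hV : EntropySol γ cv T V V0) (hVK : CompactValued T V)
    (hVB : BVBounded T V) {c : ℝ} (hS : ShockFree γ T c V) (hU : EntropySol γ cv T U V0)
    (hUK : CompactValued T U) (hent : BVBounded T U ∨ EntInit γ cv T U V0) :
    ∀ᵐ z ∂(volume.restrict (strip T)), U z = V z :=
  uniq_St hγ hcv hT hV0 hV hVK hVB hS hU hUK hent

end Pool.Agent.Results.MP_55694c_an.ShockFreeStability
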