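import Mathlib
import Pool.Agent.helper23_Euler.Jump

open MeasureTheory Set Filter Topology
open Pool.Agent.helper23_Euler

namespace Pool.Agent.Results.MP_55694c_an.VacuumFromJump

/-- Polytropic Euler equations, `γ > 1`, `c_v > 0`.
Let the BV datum `U0` have a point `x0` where the one-sided limits satisfy
`u₊ - u₋ ≥ 2/(γ-1) (c₋ + c₊)`.  Then for every `T > 0` no entropy weak solution
on `ℝ × [0,T)` which is BV in space uniformly in time (or satisfies the entropy inequality with
the datum up to `t = 0`, without any BV assumption) takes its values in a compact subset of the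
physical region: every such solution reaches vacuum or leaves all compacts immediately. -/
theorem result (γ cv : ℝ) (hγ : 1 < γ) (hcv : 0 < cv) (U0 : ℝ → St) (hU0 : BVDatum U0) (x0 : ℝ)
    (UL UR : St) (hl : Tendsto U0 (𝓝[<] x0) (𝓝 UL)) (hr : Tendsto U0 (𝓝[>] x0) (𝓝 UR))
    (hc : 2 / (γ - 1) * (sound γ UL + sound γ UR) ≤ vel UR - vel UL)
    (T : ℝ) (hT : 0 < T) (U : ℝ × ℝ → St) (hU : EntropySol γ cv T U U0)
    (hE : BVBounded T U ∨ EntInit γ cv T U U0) : ¬ CompactValued T U :=
  not_compactValued hγ hcv hU0 hl hr hc hT hU hE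

/-- Remark (not part of the result): two-state data give the negated form of Q1 as worded. -/
theorem remark (γ cv : ℝ) (hγ : 1 < γ) (hcv : 0 < cv) :
    ∃ U0 : ℝ → St, BVDatum U0 ∧ ¬ ∃ U : ℝ × ℝ → St, GlobalBVSol γ cv U U0 := by
  obtain ⟨UL, UR, hUL, hUR, hc⟩ := exists_critical hγ
  refine ⟨stepDatum UL UR, stepDatum_BV hUL hUR, ?_⟩
  rintro ⟨U, hU⟩
  obtain ⟨a1, a2, a3⟩ := hU 1 one_pos
  refine result γ cv hγ hcv (stepDatum UL UR) (stepDatum_BV hUL hUR) 0 UL UR ?_ ?_ hc 1 one_pos U
    a1 (Or.inl a2) a3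
  · refine tendsto_const_nhds.congr' ?_
    filter_upwards [self_mem_nhdsWithin] with x hx
    have hx' : x < 0 := hx
    simp [stepDatum, hx']
  · refine tendsto_const_nhds.congr' ?_
    filter_upwards [self_mem_nhdsWithin] with x hx
    have hx' : ¬ x < 0 := not_lt.2 (le_of_lt hx)
    simp [stepDatum, hx']

end Pool.Agent.Results.MP_55694c_an.VacuumFromJump
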